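import Pool.Agent.H.MP_e427d9_lc.Defs

set_option autoImplicit false

namespace Pool.Agent.H.MP_e427d9_lc

variable {n k : ℕ}

theorem Fm.iso {V W : Type} {G : SimpleGraph V} {H : SimpleGraph W} (e : G ≃g H) (φ : Fm n) (v : Fin n → V) :
    φ.Sat H (e ∘ v) ↔ φ.Sat G v := by
  induction φ with
  | adj i j => exact e.map_adj_iff
  | eq i j => exact e.injective.eq_iff
  | not _ ih => exact not_congr (ih v)
  | and _ _ a b => exact and_congr (a v) (b v)
  | or _ _ a b => exact or_congr (a v) (b v)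
  | ex _ ih => exact e.surjective.exists.trans (exists_congr fun x => by rw [← ih, Fin.comp_cons])
  | all _ ih => exact e.surjective.forall.trans (forall_congr' fun x => by rw [← ih, Fin.comp_cons])

theorem Fm.iso0 {V W : Type} {G : SimpleGraph V} {H : SimpleGraph W} (e : G ≃g H) (φ : Fm 0) :
    φ.Sat H Fin.elim0 ↔ φ.Sat G Fin.elim0 := by
  rw [← φ.iso e, Subsingleton.elim (e ∘ _) Fin.elim0]

def Tp : ℕ → ℕ → Type
  | 0, n => Fin n → Fin n → Prop × Prop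
  | k + 1, n => (Fin n → Fin n → Prop × Prop) × Set (Tp k (n + 1))

instance : Finite (Tp k n) := by
  induction k generalizing n <;> unfold Tp <;> infer_instance

def tp {V : Type} (G : SimpleGraph V) : ∀ k {n}, (Fin n → V) → Tp k n
  | 0, _, v => fun i j => (G.Adj (v i) (v j), v i = v j)
  | k + 1, _, v => (fun i j => (G.Adj (v i) (v j), v i = v j), Set.range fun x => tp G k (Fin.cons x v))

theorem tp_sat {V W : Type} {G : SimpleGraph V} {H : SimpleGraph W} (φ : Fm n) (h : φ.depth ≤ k) {v w}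
    (e : tp G k v = tp H k w) : φ.Sat G v ↔ φ.Sat H w := by
  have a : ∀ {n k} {v : Fin n → V} {w}, tp G k v = tp H k w → ∀ i j,
      (G.Adj (v i) (v j), v i = v j) = (H.Adj (w i) (w j), w i = w j) := fun {n k v w} e i j => by
    cases k
    exacts [congrFun₂ e i j, congrFun₂ (congrArg Prod.fst e) i j]
  have b : ∀ {n k} {v : Fin n → V} {w}, tp G (k + 1) v = tp H (k + 1) w →
      (∀ x, ∃ y, tp G k (Fin.cons x v) = tp H k (Fin.cons y w)) ∧
        ∀ y, ∃ x, tp G k (Fin.cons x v) = tp H k (Fin.cons y w) := fun e =>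
    have := Set.ext_iff.1 (congrArg Prod.snd e)
    ⟨fun x => ((this _).1 ⟨x, rfl⟩).imp fun _ => Eq.symm, fun y => (this _).2 ⟨y, rfl⟩⟩
  induction φ generalizing k with
  | adj i j => exact iff_of_eq (congrArg Prod.fst (a e i j))
  | eq i j => exact iff_of_eq (congrArg Prod.snd (a e i j))
  | not _ ih => exact not_congr (ih h e)
  | and _ _ c d => exact and_congr (c (max_le_iff.1 h).1 e) (d (max_le_iff.1 h).2 e)
  | or _ _ c d => exact or_congr (c (max_le_iff.1 h).1 e) (d (max_le_iff.1 h).2 e)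
  | ex _ ih =>
    obtain _ | k := k
    · cases h
    exact ⟨fun ⟨x, c⟩ => let ⟨y, d⟩ := (b e).1 x; ⟨y, (ih (Nat.le_of_succ_le_succ h) d).1 c⟩,
      fun ⟨y, c⟩ => let ⟨x, d⟩ := (b e).2 y; ⟨x, (ih (Nat.le_of_succ_le_succ h) d).2 c⟩⟩
  | all _ ih =>
    obtain _ | k := k
    · cases h
    exact ⟨fun c y => let ⟨x, d⟩ := (b e).2 y; (ih (Nat.le_of_succ_le_succ h) d).1 (c x),
      fun c x => let ⟨y, d⟩ := (b e).1 x; (ih (Nat.le_of_succ_le_succ h) d).2 (c y)⟩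

theorem diag {sz : ℕ → ℕ} (T : ∀ i, SimpleGraph (Fin (sz i))) (Hl : ℕ → Prop) (ψ : Fm 0) (hψ : ψ.depth ≤ k)
    (h0 : Hl 0) (h1 : ∀ i, Hl (i + 1) ↔ Hl i ∧ ∃ φ : Fm 0, φ.depth ≤ k ∧ Defines φ (T i))
    (h2 : ∀ i, Hl i → i < sz i ∧ ψ.Sat (T i) Fin.elim0)
    (h3 : ∀ (W : Type) [Finite W] (H : SimpleGraph W), ψ.Sat H Fin.elim0 → ∃ i, Hl i ∧ Nonempty (H ≃g T i)) : False := by
  have dn : ∀ i j, Hl (i + j) → Hl i := fun i j => by
    induction j with
    | zero => exact id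
    | succ j ih => exact fun h => ih ((h1 _).1 h).1
  have all : ∀ i, Hl i := fun i => by
    induction i with
    | zero => exact h0
    | succ i ih =>
      by_contra hn
      have : ∀ j ≤ i, ∃ χ : Fm 0, χ.depth ≤ k ∧ χ.Sat (T i) Fin.elim0 ∧ ∀ (W : Type) [Finite W] (H : SimpleGraph W),
          χ.Sat H Fin.elim0 → ∃ l, j ≤ l ∧ Hl l ∧ Nonempty (H ≃g T l) := fun j hj => by
        induction j with
        | zero => exact ⟨ψ, hψ, (h2 i ih).2, by simpa using h3⟩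
        | succ j ij =>
          obtain ⟨χ, a, b, c⟩ := ij (by omega)
          obtain ⟨l, rfl⟩ := Nat.exists_eq_add_of_le hj
          obtain ⟨-, δ, d, e, f⟩ := (h1 _).1 (dn _ _ ih)
          refine ⟨χ.and δ.not, max_le a d, ⟨b, fun g => hn ((h1 _).2 ⟨ih, δ, d, g, fun W _ H s => ?_⟩)⟩,
            fun W _ H s => ?_⟩
          · exact ⟨(f W H s).some.trans (f _ _ g).some.symm⟩
          · obtain ⟨m, g, u, ⟨t⟩⟩ := c W H s.1
            refine ⟨m, g.lt_of_ne ?_, u, ⟨t⟩⟩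
            rintro rfl
            exact s.2 ((δ.iso0 t).1 e)
      obtain ⟨χ, a, b, c⟩ := this i le_rfl
      refine hn ((h1 _).2 ⟨ih, χ, a, b, fun W _ H s => ?_⟩)
      obtain ⟨l, g, u, t⟩ := c W H s
      obtain rfl | g := g.eq_or_lt
      · exact t
      · obtain ⟨m, rfl⟩ := Nat.exists_eq_add_of_le g
        exact (hn (dn _ _ u)).elim
  obtain ⟨y, hy⟩ := Finite.exists_infinite_fiber fun i => tp (T i) k Fin.elim0
  have hy := Set.infinite_coe_iff.1 hy
  obtain ⟨i, a⟩ := hy.nonempty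
  obtain ⟨j, b, c⟩ := hy.exists_gt (sz i)
  obtain ⟨-, δ, d, e, f⟩ := (h1 i).1 (all _)
  obtain ⟨t⟩ := f _ (T j) ((tp_sat δ d (a.trans b.symm)).1 e)
  have := Fin.equiv_iff_eq.1 ⟨t.toEquiv⟩
  have := (h2 j (all j)).1
  omega

def Fm.ren : ∀ {k n}, (Fin k → Fin n) → Fm k → Fm n
  | _, _, ρ, .adj i j => .adj (ρ i) (ρ j)
  | _, _, ρ, .eq i j => .eq (ρ i) (ρ j)
  | _, _, ρ, .not φ => .not (φ.ren ρ)
  | _, _, ρ, .and φ ψ => .and (φ.ren ρ) (ψ.ren ρ)
  | _, _, ρ, .or φ ψ => .or (φ.ren ρ) (ψ.ren ρ)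
  | _, _, ρ, .ex φ => .ex (φ.ren (Fin.cons 0 fun i => (ρ i).succ))
  | _, _, ρ, .all φ => .all (φ.ren (Fin.cons 0 fun i => (ρ i).succ))

theorem Fm.depth_ren (ρ : Fin k → Fin n) (φ : Fm k) : (φ.ren ρ).depth = φ.depth := by
  induction φ generalizing n <;> simp_all [Fm.ren, Fm.depth]

theorem Fm.sat_ren {V : Type} (G : SimpleGraph V) (ρ : Fin k → Fin n) (φ : Fm k) (v : Fin n → V) :
    (φ.ren ρ).Sat G v ↔ φ.Sat G fun i => v (ρ i) := by
  have : ∀ {k n} (ρ : Fin k → Fin n) (v : Fin n → V) x, (fun i => (Fin.cons x v : Fin (n + 1) → V)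
      ((Fin.cons 0 fun i => (ρ i).succ : Fin (k + 1) → _) i)) = Fin.cons x fun i => v (ρ i) :=
    fun ρ v x => funext fun i => by induction i using Fin.cases <;> rfl
  induction φ generalizing n <;> simp_all [Fm.ren, Fm.Sat]

def D (P : ℕ → ∀ (V : Type) (_ : SimpleGraph V), (Fin n → V) → Prop) : Prop :=
  ∃ a, ∀ m, ∃ φ : Fm n, φ.depth ≤ a + m ∧ ∀ V G v, φ.Sat G v ↔ P m V G v

section
variable {P Q : ℕ → ∀ (V : Type) (_ : SimpleGraph V), (Fin n → V) → Prop}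

theorem D.adj (i j : Fin n) : D fun _ _ G v => G.Adj (v i) (v j) := ⟨0, fun _ => ⟨.adj i j, zero_le, fun _ _ _ => .rfl⟩⟩
theorem D.eq (i j : Fin n) : D fun _ _ _ v => v i = v j := ⟨0, fun _ => ⟨.eq i j, zero_le, fun _ _ _ => .rfl⟩⟩
theorem D.not : D P → D fun m V G v => ¬P m V G v :=
  fun ⟨a, h⟩ => ⟨a, fun m => let ⟨φ, c, h⟩ := h m; ⟨.not φ, c, fun V G v => not_congr (h V G v)⟩⟩
theorem D.and : D P → D Q → D fun m V G v => P m V G v ∧ Q m V G v :=
  fun ⟨a, h⟩ ⟨b, h'⟩ => ⟨a + b, fun m => let ⟨φ, c, h⟩ := h m; let ⟨ψ, d, h'⟩ := h' m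
    ⟨.and φ ψ, max_le (by omega) (by omega), fun V G v => and_congr (h V G v) (h' V G v)⟩⟩
theorem D.congr : D P → (∀ m V G v, P m V G v ↔ Q m V G v) → D Q :=
  fun ⟨a, h⟩ e => ⟨a, fun m => let ⟨φ, c, h⟩ := h m; ⟨φ, c, fun V G v => (h V G v).trans (e ..)⟩⟩
theorem D.imp (h : D P) (h' : D Q) : D fun m V G v => P m V G v → Q m V G v :=
  (h.and h'.not).not.congr (by simp)
theorem D.or (h : D P) (h' : D Q) : D fun m V G v => P m V G v ∨ Q m V G v :=
  (h.not.and h'.not).not.congr (by simp [or_iff_not_imp_left])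
theorem D.iff (h : D P) (h' : D Q) : D fun m V G v => P m V G v ↔ Q m V G v :=
  ((h.imp h').and (h'.imp h)).congr fun _ _ _ _ => iff_iff_implies_and_implies.symm

variable {B : ℕ → ∀ (V : Type) (_ : SimpleGraph V), V → (Fin n → V) → Prop}

theorem D.ex : D (fun m V G (v : Fin (n + 1) → V) => B m V G (v 0) (Fin.tail v)) → D fun m V G v => ∃ x, B m V G x v :=
  fun ⟨a, h⟩ => ⟨a + 1, fun m => let ⟨φ, c, h⟩ := h m
    ⟨.ex φ, by rw [Fm.depth]; omega, fun V G v => by simp [Fm.Sat, h]⟩⟩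
theorem D.all (h : D fun m V G (v : Fin (n + 1) → V) => B m V G (v 0) (Fin.tail v)) :
    D fun m V G v => ∀ x, B m V G x v :=
  (D.ex (B := fun m V G x v => ¬B m V G x v) h.not).not.congr (by simp)
theorem D.true : D (n := n) fun _ _ _ _ => True :=
  (D.all (B := fun _ _ _ x _ => x = x) (D.eq 0 0)).congr (by simp)

theorem D.conj {α : Type} [Finite α] {P : α → ℕ → ∀ (V : Type) (_ : SimpleGraph V), (Fin n → V) → Prop}
    (h : ∀ a, D (P a)) : D fun m V G v => ∀ a, P a m V G v := by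
  cases nonempty_fintype α
  have : ∀ l : List α, D fun m V G v => ∀ a ∈ l, P a m V G v := fun l => by
    induction l with
    | nil => exact D.true.congr (by simp)
    | cons a l ih => exact ((h a).and ih).congr (by simp)
  exact (this Finset.univ.toList).congr (by simp)
theorem D.disj {α : Type} [Finite α] {P : α → ℕ → ∀ (V : Type) (_ : SimpleGraph V), (Fin n → V) → Prop}
    (h : ∀ a, D (P a)) : D fun m V G v => ∃ a, P a m V G v :=
  (D.conj fun a => (h a).not).not.congr (by simp)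
theorem D.cst (p : Prop) : D (n := n) fun _ _ _ _ => p := by
  by_cases h : p
  exacts [D.true.congr (by simp [h]), D.true.not.congr (by simp [h])]

theorem D.sb {P : ℕ → ∀ (V : Type) (_ : SimpleGraph V), (Fin k → V) → Prop} (h : D P) (ρ : Fin k → Fin n) :
    D fun m V G (v : Fin n → V) => P m V G fun i => v (ρ i) :=
  let ⟨a, h⟩ := h; ⟨a, fun m => let ⟨φ, c, h⟩ := h m
    ⟨φ.ren ρ, by rwa [Fm.depth_ren], fun V G v => by rw [Fm.sat_ren, h]⟩⟩

theorem D.exN (h : D P) : D (n := 0) fun m V G _ => ∃ v, P m V G v := by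
  induction n with
  | zero => exact h.congr fun m V G v => ⟨fun h => ⟨v, h⟩, fun ⟨w, h⟩ => Subsingleton.elim w v ▸ h⟩
  | succ n ih =>
    exact (ih (P := fun m V G v => ∃ x, P m V G (Fin.cons x v)) (D.ex (by simpa using h))).congr fun m V G _ =>
      ⟨fun ⟨_, _, h⟩ => ⟨_, h⟩, fun ⟨v, h⟩ => ⟨Fin.tail v, v 0, by simpa⟩⟩

theorem D.iso (h : D P) {m V W} {G : SimpleGraph V} {H : SimpleGraph W} (e : G ≃g H) (v : Fin n → V) :
    P m W H (e ∘ v) ↔ P m V G v := by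
  obtain ⟨_, h⟩ := h
  obtain ⟨φ, -, h⟩ := h m
  rw [← h, ← h, φ.iso]

end

def It {V : Type} (Z : V → Prop) (S : V → V → Prop) : ℕ → V → Prop
  | 0, x => Z x
  | m + 1, x => ∃ y, S y x ∧ It Z S m y

theorem D.it {Z : ∀ (V : Type) (_ : SimpleGraph V), (Fin n → V) → V → Prop}
    {S : ∀ (V : Type) (_ : SimpleGraph V), (Fin n → V) → V → V → Prop}
    (hZ : D fun _ V G (v : Fin (n + 1) → V) => Z V G (Fin.tail v) (v 0))
    (hS : D fun _ V G (v : Fin (n + 2) → V) => S V G (Fin.tail (Fin.tail v)) (v 0) (Fin.tail v 0)) :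
    D fun m V G (v : Fin (n + 1) → V) => It (Z V G (Fin.tail v)) (S V G (Fin.tail v)) m (v 0) := by
  obtain ⟨a, hZ⟩ := hZ
  obtain ⟨b, hS⟩ := hS
  obtain ⟨σ, s1, s2⟩ := hS 0
  refine ⟨a + b, fun m => ?_⟩
  induction m with
  | zero => exact let ⟨φ, c, d⟩ := hZ 0; ⟨φ, by omega, d⟩
  | succ m ih =>
    obtain ⟨φ, c, d⟩ := ih
    refine ⟨.ex (.and σ (φ.ren (Fin.cons 0 fun i => i.succ.succ))), by simp [Fm.depth, Fm.depth_ren]; omega,
      fun V G v => ?_⟩
    simp only [Fm.Sat, s2, Fm.sat_ren, d, It]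
    rfl

end Pool.Agent.H.MP_e427d9_lc
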