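import Pool.Agent.H.MP_e427d9_lc.A

set_option autoImplicit false

namespace Pool.Agent.H.MP_e427d9_lc

open Sum

variable {K N : ℕ} {O : Type}

abbrev VT (K : ℕ) (O : Type) (N : ℕ) := (Fin (K + 2) ⊕ O) ⊕ Fin (K + 2) × Fin N

def hf (St : O → Fin N → Prop) (R : Fin K → Fin N → Fin N → Prop) : VT K O N → VT K O N → Prop
  | inl (inl s), inr (s', _) => s = s'
  | inl (inr o), inr (s', x) => s' = 1 ∧ St o x
  | inr (s, x), inr (s', y) => (s ≠ 0 ∧ s' = 0 ∧ x ≤ y) ∨ (s = 1 ∧ ∃ i, s' = Fin.succ (Fin.succ i) ∧ R i x y)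
  | _, _ => False

def Γ (St : O → Fin N → Prop) (R : Fin K → Fin N → Fin N → Prop) : SimpleGraph (VT K O N) where
  Adj x y := hf St R x y ∨ hf St R y x
  symm := ⟨fun _ _ => Or.symm⟩
  loopless := ⟨by
    rintro ((_ | _) | ⟨s, x⟩) <;> simp [hf]
    exact fun h i e => ((Fin.succ_succ_ne_one i) (e ▸ h)).elim⟩

section
variable {V : Type} (H : SimpleGraph V) (w : Fin (K + 2) ⊕ O → V)

def S (s : Fin (K + 2)) (x : V) : Prop := H.Adj (w (inl s)) x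
def SO (o : O) (x : V) : Prop := H.Adj (w (inr o)) x
def Le (x y : V) : Prop := ∀ b, S H w 0 b → H.Adj y b → H.Adj x b
def Mx (a b : V) : Prop := S H w 1 a ∧ H.Adj a b ∧ ∀ a', S H w 1 a' → H.Adj a' b → Le H w a' a
def RR (i : Fin K) (t v : V) : Prop := ∃ y, S H w i.succ.succ y ∧ Le H w v y ∧ Le H w y v ∧ H.Adj t y

def Str : Prop :=
  (∀ l l', w l = w l' → l = l') ∧ (∀ l l', ¬H.Adj (w l) (w l')) ∧ (∀ x, (∃ l, x = w l) ∨ ∃ s, S H w s x) ∧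
  (∀ s s' x, S H w s x → S H w s' x → s = s') ∧ (∀ o x, SO H w o x → S H w 1 x) ∧
  (∀ x y, S H w 1 x → S H w 1 y → Le H w x y ∨ Le H w y x) ∧
  (∀ s, s ≠ 0 → ∀ x y, S H w s x → S H w s y → Le H w x y → Le H w y x → x = y) ∧
  (∀ s s', s ≠ 0 → s' ≠ 0 → ∀ x, S H w s x → ∃ y, S H w s' y ∧ Le H w x y ∧ Le H w y x) ∧
  (∀ b, S H w 0 b → ∃ a, Mx H w a b) ∧ (∀ a, S H w 1 a → ∃ b, S H w 0 b ∧ Mx H w a b) ∧
  (∀ a b b', S H w 0 b → S H w 0 b' → Mx H w a b → Mx H w a b' → b = b') ∧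
  ∀ s s', s = s' ∨ 2 ≤ s.1 ∧ 2 ≤ s'.1 → ∀ x y, S H w s x → S H w s' y → ¬H.Adj x y

variable {H w}

theorem Le.trans {x y z} (a : Le H w x y) (b : Le H w y z) : Le H w x z := fun c d e => a c d (b c d e)

theorem str_iso [Finite V] (h : Str H w) :
    ∃ (N : ℕ) (St : O → Fin N → Prop) (R : _) (e : Γ St R ≃g H), ∀ l, e (inl l) = w l := by
  classical
  obtain ⟨h1, h2, h3, h4, h5, h6, h7, h8, h9, h10, h11, h12⟩ := h
  let : LinearOrder {x // S H w 1 x} :=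
    { le := fun x y => Le H w x.1 y.1
      le_refl := fun _ _ _ => id
      le_trans := fun _ _ _ => Le.trans
      le_antisymm := fun x y a b => Subtype.ext (h7 1 (by simp) _ _ x.2 y.2 a b)
      le_total := fun x y => h6 _ _ x.2 y.2
      toDecidableLE := Classical.decRel _ }
  cases nonempty_fintype V
  obtain ⟨N, o, ol⟩ : ∃ N, ∃ o : Fin N ≃ {x // S H w 1 x}, ∀ x y, Le H w (o x).1 (o y).1 ↔ x ≤ y :=
    ⟨_, (monoEquivOfFin {x // S H w 1 x} rfl).toEquiv, fun x y => (monoEquivOfFin {x // S H w 1 x} rfl).le_iff_le⟩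
  have : ∀ s x, ∃ y, S H w s y ∧ (s = 0 → Mx H w (o x).1 y) ∧ (s ≠ 0 → Le H w (o x).1 y ∧ Le H w y (o x).1) :=
    fun s x => by
      by_cases e : s = 0
      · simpa [e] using h10 _ (o x).2
      · simpa [e] using h8 1 s (by simp) e _ (o x).2
  choose f f1 f2 f3 using this
  have k : ∀ s x y, s ≠ 0 → (H.Adj (f s x) (f 0 y) ↔ x ≤ y) := fun s x y e =>
    ⟨fun a => (ol ..).1 ((f2 0 y rfl).2.2 _ (o x).2 ((f3 s x e).1 _ (f1 ..) a)),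
      fun a => (f3 s x e).2 _ (f1 ..) ((ol ..).2 a _ (f1 ..) (f2 0 y rfl).2.1)⟩
  refine ⟨N, fun q x => SO H w q (f 1 x), fun i x y => H.Adj (f 1 x) (f i.succ.succ y),
    ⟨.ofBijective (Sum.elim w fun a => f a.1 a.2) ⟨?_, fun x => ?_⟩, ?_⟩, fun _ => rfl⟩
  · rintro (l | ⟨s, x⟩) (l' | ⟨s', y⟩) e <;> simp only [Sum.elim_inl, Sum.elim_inr] at e
    · rw [h1 _ _ e]
    · exact (h2 _ l (e ▸ f1 s' y :)).elim
    · exact (h2 _ l' (e ▸ f1 s x :)).elim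
    · obtain rfl := h4 _ _ _ (f1 s x) (e ▸ f1 s' y :)
      by_cases z : s = 0
      · subst z
        rw [le_antisymm ((k 1 x y (by simp)).1 (e ▸ (k 1 x x (by simp)).2 le_rfl))
          ((k 1 y x (by simp)).1 (e ▸ (k 1 y y (by simp)).2 le_rfl))]
      · rw [le_antisymm ((k s x y z).1 (e ▸ (k s y y z).2 le_rfl)) ((k s y x z).1 (e ▸ (k s x x z).2 le_rfl))]
  · obtain ⟨l, rfl⟩ | ⟨s, a⟩ := h3 x
    · exact ⟨inl l, rfl⟩
    by_cases z : s = 0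
    · subst z
      obtain ⟨y, b⟩ := h9 x a
      obtain ⟨t, e⟩ := o.surjective ⟨y, b.1⟩
      exact ⟨inr (0, t), h11 y _ _ (f1 ..) a (by simpa [e] using f2 0 t rfl) b⟩
    · obtain ⟨y, b, c, d⟩ := h8 s 1 z (by simp) x a
      obtain ⟨t, e⟩ := o.surjective ⟨y, b⟩
      have := f3 s t z
      simp only [e] at this
      exact ⟨inr (s, t), h7 s z _ _ (f1 ..) a (this.2.trans d) (c.trans this.1)⟩
  · have a1 : ∀ s s' x, H.Adj (w (inl s)) (f s' x) ↔ s = s' := fun s s' x =>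
      ⟨fun a => h4 _ _ _ a (f1 ..), fun a => a ▸ f1 ..⟩
    have a2 : ∀ q s' x, H.Adj (w (inr q)) (f s' x) ↔ s' = 1 ∧ SO H w q (f 1 x) := fun q s' x =>
      ⟨fun a => by cases h4 _ _ _ (h5 _ _ a) (f1 ..); exact ⟨rfl, a⟩, fun ⟨a, b⟩ => a ▸ b⟩
    intro a b
    change H.Adj (Sum.elim w (fun a => f a.1 a.2) a) (Sum.elim w (fun a => f a.1 a.2) b) ↔ _
    obtain (s | q) | ⟨s, x⟩ := a <;> obtain (s' | q') | ⟨s', y⟩ := b <;> simp only [Sum.elim_inl, Sum.elim_inr, Γ, hf, h2, a1, a2, or_false, false_or,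
        H.adj_comm (f _ _) (w _)]
    refine ⟨fun a => ?_, ?_⟩
    · have := fun e => h12 s s' e _ _ (f1 ..) (f1 ..) a
      obtain ⟨_ | _ | s, hs⟩ := s <;> obtain ⟨_ | _ | s', hs'⟩ := s' <;> simp at this
      · exact .inr (.inl ⟨by simp, rfl, (k _ _ _ (by simp)).1 a.symm⟩)
      · exact .inr (.inl ⟨by simp, rfl, (k _ _ _ (by simp)).1 a.symm⟩)
      · exact .inl (.inl ⟨by simp, rfl, (k _ _ _ (by simp)).1 a⟩)
      · exact .inl (.inr ⟨rfl, ⟨s', by omega⟩, rfl, a⟩)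
      · exact .inl (.inl ⟨by simp, rfl, (k _ _ _ (by simp)).1 a⟩)
      · exact .inr (.inr ⟨rfl, ⟨s, by omega⟩, rfl, a.symm⟩)
    · rintro ((⟨a, rfl, b⟩ | ⟨rfl, i, rfl, a⟩) | ⟨a, rfl, b⟩ | ⟨rfl, i, rfl, a⟩)
      exacts [(k _ _ _ a).2 b, a, ((k _ _ _ a).2 b).symm, a.symm]

end

variable {St : O → Fin N → Prop} {R : Fin K → Fin N → Fin N → Prop}

theorem g_s {s x} : S (Γ St R) inl s x ↔ ∃ t, inr (s, t) = x := by
  rcases x with (_ | _) | ⟨s', x⟩ <;> simp [S, Γ, hf, eq_comm]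

theorem g_b {s x y} (h : s ≠ 0) : (Γ St R).Adj (inr (s, x)) (inr (0, y)) ↔ x ≤ y := by
  simp [Γ, hf, h, (Fin.succ_ne_zero _).symm]

theorem g_le {s s' x y} (h : s ≠ 0) (h' : s' ≠ 0) : Le (Γ St R) inl (inr (s, x)) (inr (s', y)) ↔ x ≤ y := by
  simp only [Le, g_s, forall_exists_index, forall_apply_eq_imp_iff, g_b h, g_b h']
  exact ⟨fun a => a y le_rfl, fun a _ => a.trans⟩

theorem g_so {o x} : SO (Γ St R) inl o (inr (1, x)) ↔ St o x := by simp [SO, Γ, hf]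

theorem g_rr {i x y} : RR (Γ St R) inl i (inr (1, x)) (inr (1, y)) ↔ R i x y := by
  have o : (1 : Fin (K + 2)) ≠ 0 := by simp
  have a : ∀ y, (Γ St R).Adj (inr (1, x)) (inr (i.succ.succ, y)) ↔ R i x y := by simp [Γ, hf, Fin.succ_succ_ne_one]
  refine ⟨fun ⟨_, b, c, d, e⟩ => ?_, fun b => ⟨_, g_s.2 ⟨y, rfl⟩, (g_le o (Fin.succ_ne_zero _)).2 le_rfl,
    (g_le (Fin.succ_ne_zero _) o).2 le_rfl, (a y).2 b⟩⟩
  obtain ⟨t, rfl⟩ := g_s.1 b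
  rwa [((g_le o (Fin.succ_ne_zero _)).1 c).antisymm ((g_le (Fin.succ_ne_zero _) o).1 d), ← a]

theorem g_str : Str (Γ St R) inl := by
  have o : (1 : Fin (K + 2)) ≠ 0 := by simp
  have mx : ∀ x y, Mx (Γ St R) inl (inr (1, x)) (inr (0, y)) ↔ x = y := fun x y => by
    simp only [Mx, g_s, forall_exists_index, forall_apply_eq_imp_iff, g_b o, g_le o o]
    exact ⟨fun ⟨_, a, b⟩ => a.antisymm (b y le_rfl), fun e => ⟨⟨_, rfl⟩, e.le, fun _ => e ▸ id⟩⟩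
  simp only [Str, g_s]
  refine ⟨by simp, by rintro (_ | _) (_ | _) <;> simp [Γ, hf], ?_, ?_, ?_, ?_, ?_, ?_, ?_, ?_, ?_, ?_⟩
  · rintro (_ | ⟨s, x⟩) <;> simp
  · rintro s s' _ ⟨t, rfl⟩ ⟨u, e⟩
    cases e
    rfl
  · rintro o ((_ | _) | ⟨s, x⟩) <;> simp +contextual [SO, Γ, hf]
  · rintro _ _ ⟨x, rfl⟩ ⟨y, rfl⟩
    simpa only [g_le o o] using le_total x y
  · rintro s h _ _ ⟨x, rfl⟩ ⟨y, rfl⟩ a b
    rw [((g_le h h).1 a).antisymm ((g_le h h).1 b)]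
  · rintro s s' h h' _ ⟨x, rfl⟩
    exact ⟨_, ⟨x, rfl⟩, (g_le h h').2 le_rfl, (g_le h' h).2 le_rfl⟩
  · rintro _ ⟨x, rfl⟩
    exact ⟨_, (mx x x).2 rfl⟩
  · rintro _ ⟨x, rfl⟩
    exact ⟨_, ⟨x, rfl⟩, (mx x x).2 rfl⟩
  · rintro a _ _ ⟨x, rfl⟩ ⟨y, rfl⟩ b c
    obtain ⟨z, rfl⟩ := g_s.1 b.1
    rw [← (mx ..).1 b, ← (mx ..).1 c]
  · rintro s s' h _ _ ⟨x, rfl⟩ ⟨y, rfl⟩
    simp only [Γ, hf, Fin.ext_iff, Fin.val_succ, ne_eq, Fin.val_zero, Fin.val_one] at h ⊢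
    rintro ((a | ⟨a, i, b, -⟩) | a | ⟨a, i, b, -⟩) <;> omega

end Pool.Agent.H.MP_e427d9_lc
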