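import Pool.Agent.H.MP_e427d9_lc.B

set_option autoImplicit false

namespace Pool.Agent.H.MP_e427d9_lc

open Sum Function

structure FM (Q : Type) (K : ℕ) where
  nx : Q → Bool → Option Q
  r : Q → Fin K
  ef : Q → Bool → Fin K → Option Bool
  q0 : Q
  nd : ∀ q b i, ef q b i = some false → i = r q ∧ b = false

def ap : Option Bool → ℕ → ℕ
  | none, x => x
  | some true, x => x + 1
  | some false, x => x - 1

variable {Q : Type} {K N : ℕ} (M : FM Q K)

def FM.step (c : Q × (Fin K → ℕ)) : Option (Q × (Fin K → ℕ)) :=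
  (M.nx c.1 (decide (c.2 (M.r c.1) = 0))).map fun q => (q, fun i => ap (M.ef c.1 (decide (c.2 (M.r c.1) = 0)) i) (c.2 i))

def inp (c j i : ℕ) : ℕ := if i = 0 then c else if i = 1 then j else 0

def FM.run (c j s : ℕ) : Option (Q × (Fin K → ℕ)) := (fun o => o.bind M.step)^[s] (some (M.q0, fun i => inp c j i))

def FM.X (c j t : ℕ) : Option (Q × (Fin K → ℕ)) := if t < j then none else M.run c j (t - j)

def FM.Good (c j N : ℕ) : Prop := c < j ∧ j < N ∧ M.run c j (N - j) = none ∧ ∀ s < N - j, M.run c j s ≠ none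

def FM.St (c j N : ℕ) (o : Option Q) (t : Fin N) : Prop := o = (M.X c j t).map Prod.fst
def FM.R (c j N : ℕ) (i : Fin K) (t v : Fin N) : Prop := ∃ a, M.X c j t = some a ∧ a.2 i = v

section
variable {V : Type} (A : V → Prop) (le : V → V → Prop) (St : Option Q → V → Prop) (R : Fin K → V → V → Prop)

def Z (x : V) : Prop := ∀ y, A y → le x y
def La (x : V) : Prop := ∀ y, A y → le y x
def Sc (x y : V) : Prop := ¬le y x ∧ ∀ u, A u → le u x ∨ le y u
def Only (o : Option Q) (u : V) : Prop := ∀ o', St o' u ↔ o' = o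
def Idl (u : V) : Prop := Only St none u ∧ ∀ i v, A v → ¬R i u v
def Ef : Option Bool → V → V → Prop
  | none, y, v => le y v ∧ le v y
  | some true, y, v => Sc A le y v
  | some false, y, v => Sc A le v y
def Start (z u : V) : Prop := Only St (some M.q0) u ∧ ¬le u z ∧ ∀ (i : Fin K) v, A v →
  (R i u v ↔ (i.1 = 0 ∧ le v z ∧ le z v) ∨ (i.1 = 1 ∧ le v u ∧ le u v) ∨ 2 ≤ i.1 ∧ Z A le v)
def Comp (z : V) : Prop :=
  (∀ x, A x → Z A le x → Idl A St R x) ∧
  (∀ t, A t → ∀ u, A u → Sc A le t u → St none t → Idl A St R u ∨ Start M A le St R z u) ∧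
  (∀ t, A t → La A le t → ¬St none t) ∧
  ∀ q b t, A t → ∀ x, A x → St (some q) t → R (M.r q) t x → (Z A le x ↔ b = true) → (M.nx q b = none → La A le t) ∧
    ∀ q', M.nx q b = some q' → ∃ u, A u ∧ Sc A le t u ∧ Only St (some q') u ∧
      ∀ i v, A v → (R i u v ↔ ∃ y, A y ∧ R i t y ∧ Ef A le (M.ef q b i) y v)

end

def l0 (x y : Fin N) : Prop := x.1 ≤ y.1

theorem n_z {x : Fin N} : Z (fun _ => True) l0 x ↔ x.1 = 0 :=
  ⟨fun h => Nat.le_zero.1 (h ⟨0, x.pos⟩ trivial), fun h y _ => by rw [l0]; omega⟩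
theorem n_la {x : Fin N} : La (fun _ => True) l0 x ↔ x.1 + 1 = N :=
  ⟨fun h => by have := h ⟨N - 1, by have := x.pos; omega⟩ trivial; rw [l0] at this; grind,
    fun h y _ => by rw [l0]; omega⟩
theorem n_sc {x y : Fin N} : Sc (fun _ => True) l0 x y ↔ x.1 + 1 = y.1 := by
  simp only [Sc, l0, forall_const]
  exact ⟨fun ⟨a, b⟩ => by have := b ⟨x + 1, by omega⟩; grind, fun h => ⟨by omega, fun u => by omega⟩⟩
theorem n_ef {o} {x y : Fin N} (h : o = some false → x.1 ≠ 0) : Ef (fun _ => True) l0 o x y ↔ ap o x = y := by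
  rcases o with _ | _ | _ <;> simp only [Ef, ap, n_sc, l0, forall_const] at h ⊢ <;> omega

variable {M}

theorem run_s (c j s) : M.run c j (s + 1) = (M.run c j s).bind M.step := iterate_succ_apply' ..

theorem run_le {c j s a} (h : c ≤ j) (e : M.run c j s = some a) (i) : a.2 i ≤ j + s := by
  induction s generalizing a with
  | zero => cases e; simp only [inp]; split_ifs <;> omega
  | succ s ih =>
    rw [run_s] at e
    obtain ⟨b, e1, e2⟩ := Option.bind_eq_some_iff.1 e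
    obtain ⟨_, -, rfl⟩ := Option.map_eq_some_iff.1 e2
    have := ih e1
    dsimp only
    rcases M.ef b.1 _ i with _ | _ | _ <;> simp only [ap] <;> omega

theorem n_start {St R} {z u : Fin N} : Start M (fun _ => True) l0 St R z u ↔
    Only St (some M.q0) u ∧ z.1 < u ∧ ∀ (i : Fin K) v, R i u v ↔ inp z u i = v := by
  simp only [Start, n_z, l0, forall_const, not_le, inp]
  refine and_congr_right fun _ => and_congr_right fun _ => forall₂_congr fun i v => iff_congr .rfl ?_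
  split_ifs <;> omega

theorem nd' (a : Q × (Fin K → ℕ)) (i) : M.ef a.1 (decide (a.2 (M.r a.1) = 0)) i = some false → a.2 i ≠ 0 := fun h => by
  obtain ⟨rfl, e⟩ := M.nd _ _ _ h
  simpa using e

theorem comp_good {St R} {z : Fin N} (h : Comp M (fun _ => True) l0 St R z) :
    ∃ j, M.Good z j N ∧ St = M.St z j N ∧ R = M.R z j N := by
  classical
  obtain ⟨h1, h2, h3, h4⟩ := h
  simp only [n_z, n_la, n_sc, n_start, forall_const, true_and] at h1 h2 h3 h4
  have ex : ∃ j, ∃ h : j < N, ¬Idl (fun _ => True) St R ⟨j, h⟩ :=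
    ⟨N - 1, by have := z.pos; omega, fun a => h3 _ (by have := z.pos; dsimp only; omega) ((a.1 _).2 rfl)⟩
  obtain ⟨j, ⟨a1, a2⟩, a3⟩ : ∃ j, (∃ h : j < N, ¬Idl (fun _ => True) St R ⟨j, h⟩) ∧
      ∀ t : Fin N, t < j → Idl (fun _ => True) St R t :=
    ⟨_, Nat.find_spec ex, fun t l => by simpa using Nat.find_min ex l⟩
  obtain _ | j := j
  · exact (a2 (h1 _ rfl)).elim
  obtain ⟨b1, b2, b3⟩ := (h2 ⟨j, by omega⟩ ⟨_, a1⟩ rfl (((a3 _ (by simp)).1 _).2 rfl)).resolve_left a2
  generalize j + 1 = j at *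
  have st : ∀ s (l : j + s < N) a, M.run z j s = some a → Only St (some a.1) ⟨_, l⟩ → (∀ i v, R i ⟨_, l⟩ v ↔ a.2 i = v) →
      (M.step a = none → j + s + 1 = N) ∧ ∀ b, M.step a = some b → ∃ l : j + (s + 1) < N,
        Only St (some b.1) ⟨_, l⟩ ∧ ∀ i v, R i ⟨_, l⟩ v ↔ b.2 i = v := fun s l a e c d => by
    have k := run_le b2.le e
    obtain ⟨f, g⟩ := h4 a.1 (decide (a.2 (M.r a.1) = 0)) ⟨_, l⟩ ⟨_, (k _).trans_lt l⟩ ((c _).2 rfl) ((d ..).2 rfl) (by simp)
    refine ⟨fun e => f (Option.map_eq_none_iff.1 e), fun b e => ?_⟩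
    obtain ⟨q, e', rfl⟩ := Option.map_eq_some_iff.1 e
    obtain ⟨⟨_, u⟩, rfl, g1, g2⟩ := g q e'
    refine ⟨u, g1, fun i v => (g2 i v).trans ⟨?_, fun c1 => ⟨⟨_, (k i).trans_lt l⟩, (d ..).2 rfl,
      (n_ef (nd' a i)).2 c1⟩⟩⟩
    rintro ⟨y, c1, c2⟩
    rw [d] at c1
    exact (congrArg _ c1).trans ((n_ef (c1 ▸ nd' a i)).1 c2)
  have inv : ∀ s (l : j + s < N), ∃ a, M.run z j s = some a ∧ Only St (some a.1) ⟨_, l⟩ ∧
      ∀ i v, R i ⟨_, l⟩ v ↔ a.2 i = v := fun s => by
    induction s with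
    | zero => exact fun _ => ⟨_, rfl, b1, b3⟩
    | succ s ih =>
      intro l
      obtain ⟨a, e, c, d⟩ := ih (by omega)
      obtain ⟨f, g⟩ := st s _ a e c d
      obtain ⟨b, k⟩ := Option.ne_none_iff_exists'.1 fun e => by have := f e; omega
      exact ⟨b, by rw [run_s, e]; exact k, (g b k).2⟩
  have key : ∀ t : Fin N, (∀ o, St o t ↔ M.St z j N o t) ∧ ∀ i v, R i t v ↔ M.R z j N i t v := fun ⟨t, l⟩ => by
    by_cases e : t < j
    · simpa [FM.St, FM.R, FM.X, e, Idl, Only] using a3 ⟨t, l⟩ e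
    · obtain ⟨s, rfl⟩ := Nat.exists_eq_add_of_le (not_lt.1 e)
      obtain ⟨a, e, c, d⟩ := inv s l
      simpa [FM.St, FM.R, FM.X, e, d, Only] using c
  refine ⟨j, ⟨b2, a1, ?_, fun s l => ?_⟩, funext₂ fun o t => propext ((key t).1 o),
    funext₃ fun i t v => propext ((key t).2 i v)⟩
  · obtain ⟨s, e⟩ : ∃ s, N = j + (s + 1) := ⟨N - j - 1, by omega⟩
    obtain ⟨a, e', c, d⟩ := inv s (by omega)
    rw [show N - j = s + 1 by omega, run_s, e']
    by_contra k
    obtain ⟨b, k⟩ := Option.ne_none_iff_exists'.1 k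
    have := ((st s _ a e' c d).2 b k).1
    omega
  · obtain ⟨a, e, -⟩ := inv s (by omega)
    simp [e]

theorem good_comp {z : Fin N} {j} (h : M.Good z j N) : Comp M (fun _ => True) l0 (M.St z j N) (M.R z j N) z := by
  obtain ⟨h1, h2, h3, h4⟩ := h
  simp only [Comp, n_z, n_la, n_sc, n_start, forall_const, true_and, Idl, Only, FM.St, FM.R]
  refine ⟨fun x e => by simp [FM.X, show x < j by omega], fun t u e a => ?_, fun t e => ?_, ?_⟩
  · have : t < j := by_contra fun b => h4 (t - j) (by omega) (by simpa [FM.X, b, eq_comm] using a)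
    by_cases b : u < j
    · simp [FM.X, b]
    · obtain rfl : j = u := by omega
      simp [FM.X, FM.run, h1]
  · simpa [FM.X, show ¬t < j by omega, eq_comm] using h4 (t - j) (by omega)
  · rintro q b ⟨t, l⟩ x a ⟨⟨_, σ⟩, c, d⟩ e
    obtain rfl : q = _ := by simpa [c] using a
    have n : ¬t < j := fun n => by simp [FM.X, n] at c
    obtain ⟨s, rfl⟩ := Nat.exists_eq_add_of_le (not_lt.1 n)
    simp only [FM.X, n, if_false, Nat.add_sub_cancel_left] at c d
    obtain rfl : b = decide (σ (M.r q) = 0) := by cases b <;> simp_all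
    have k := run_s (M := M) z j s
    rw [c, Option.bind_some, FM.step] at k
    refine ⟨fun f => by_contra fun g => h4 (s + 1) (by dsimp only at g; omega) (by simp [k, f]), fun q' f => ?_⟩
    have l' : j + (s + 1) < N := by_contra fun g => by simp [show N - j = s + 1 by omega, k, f] at h3
    have x1 : M.X z j (j + (s + 1)) = M.run z j (s + 1) := by simp [FM.X]
    have x2 : M.X z j (j + s) = some (q, σ) := by simp [FM.X, c]
    refine ⟨⟨_, l'⟩, rfl, by simp [x1, k, f], fun i v => ?_⟩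
    simp only [x1, x2, k, f, Option.map_some, Option.some.injEq, exists_eq_left']
    exact ⟨fun g => ⟨⟨_, (run_le h1.le c i).trans_lt l⟩, rfl, (n_ef (nd' (q, σ) i)).2 g⟩,
      fun ⟨y, g1, g2⟩ => g1 ▸ (n_ef (g1 ▸ nd' (q, σ) i)).1 g2⟩

section
variable {V W : Type} {A : V → Prop} {le : V → V → Prop} {St R} {le' : W → W → Prop} {St' R'} {g : W → V} (h1 : ∀ x, A x ↔ ∃ t, g t = x)
  (h2 : ∀ x y, le (g x) (g y) ↔ le' x y)
include h1 h2

theorem tr_ef (o x y) : Ef A le o (g x) (g y) ↔ Ef (fun _ => True) le' o x y := by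
  rcases o with _ | _ | _ <;> simp [Ef, Sc, h1, h2]

theorem tr_comp (h3 : ∀ o x, St o (g x) ↔ St' o x) (h4 : ∀ i x y, R i (g x) (g y) ↔ R' i x y) (z) :
    Comp M A le St R (g z) ↔ Comp M (fun _ => True) le' St' R' z := by
  simp only [Comp, Idl, Start, Only, Z, La, Sc, h1, forall_exists_index, forall_apply_eq_imp_iff, exists_exists_eq_and,
    h2, h3, h4, tr_ef h1 h2, forall_const, true_and]

end

def Psi (M : FM Q K) {V : Type} (H : SimpleGraph V) (w : Fin (K + 2) ⊕ Option Q → V) (z : V) (m : ℕ) : Prop :=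
  Str H w ∧ S H w 1 z ∧ Comp M (S H w 1) (Le H w) (SO H w) (RR H w) z ∧
    It (Z (S H w 1) (Le H w)) (fun x y => S H w 1 x ∧ Sc (S H w 1) (Le H w) x y) m z

theorem psi_iff {St R z m} : Psi M (Γ (N := N) St R) inl z m ↔
    ∃ t : Fin N, z = inr (1, t) ∧ t.1 = m ∧ Comp M (fun _ => True) l0 St R t := by
  have o : (1 : Fin (K + 2)) ≠ 0 := by simp
  have : ∀ m (t : Fin N), It (Z (S (Γ St R) inl 1) (Le (Γ St R) inl)) (fun x y => S (Γ St R) inl 1 x ∧
      Sc (S (Γ St R) inl 1) (Le (Γ St R) inl) x y) m (inr (1, t)) ↔ t.1 = m := fun m => by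
    induction m with
    | zero => exact fun t => .trans (by simp [It, Z, g_s, g_le o o, l0]) n_z
    | succ m ih =>
      intro t
      have : ∀ x y : Fin N, Sc (S (Γ St R) inl 1) (Le (Γ St R) inl) (inr (1, x)) (inr (1, y)) ↔ x.1 + 1 = y.1 :=
        fun x y => (tr_ef (le' := l0) (fun _ => g_s) (fun _ _ => g_le o o) (some true) x y).trans n_sc
      refine ⟨fun ⟨y, ⟨a, b⟩, c⟩ => ?_, fun h => ⟨_, ⟨g_s.2 ⟨⟨m, by omega⟩, rfl⟩, (this ..).2 h.symm⟩, (ih _).2 rfl⟩⟩
      obtain ⟨u, rfl⟩ := g_s.1 a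
      rw [← (this ..).1 b, (ih _).1 c]
  have k := tr_comp (M := M) (St' := St) (R' := R) (le' := l0) (le := Le (Γ St R) inl) (St := SO (Γ St R) inl)
    (R := RR (Γ St R) inl) (fun _ => g_s (St := St) (R := R)) (fun _ _ => g_le o o) (fun _ _ => g_so) fun _ _ _ => g_rr
  exact ⟨fun ⟨_, a, b, c⟩ => by obtain ⟨t, rfl⟩ := g_s.1 a; exact ⟨t, rfl, (this ..).1 c, (k t).1 b⟩,
    by rintro ⟨t, rfl, a, b⟩; exact ⟨g_str, g_s.2 ⟨t, rfl⟩, (k t).2 b, (this ..).2 a⟩⟩

section
variable {n : ℕ} (c : Fin (K + 2) ⊕ Option Q → Fin n)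

theorem d_s (s i) : D fun _ V G (v : Fin n → V) => S G (fun l => v (c l)) s (v i) := D.adj ..
theorem d_so (s i) : D fun _ V G (v : Fin n → V) => SO G (fun l => v (c l)) s (v i) := D.adj ..
theorem d_le (i j) : D fun _ V G (v : Fin n → V) => Le G (fun l => v (c l)) (v i) (v j) :=
  .all (.imp (D.adj ..) (.imp (D.adj ..) (D.adj ..)))
theorem d_mx (i j) : D fun _ V G (v : Fin n → V) => Mx G (fun l => v (c l)) (v i) (v j) :=
  .and (D.adj ..) (.and (D.adj ..) (.all (.imp (D.adj ..) (.imp (D.adj ..) (d_le _ _ _)))))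
theorem d_rr (k i j) : D fun _ V G (v : Fin n → V) => RR G (fun l => v (c l)) k (v i) (v j) :=
  .ex (.and (D.adj ..) (.and (d_le _ _ _) (.and (d_le _ _ _) (D.adj ..))))
theorem d_z (i) : D fun _ V G (v : Fin n → V) => Z (S G (fun l => v (c l)) 1) (Le G fun l => v (c l)) (v i) :=
  .all (.imp (D.adj ..) (d_le _ _ _))
theorem d_sc (i j) : D fun _ V G (v : Fin n → V) => Sc (S G (fun l => v (c l)) 1) (Le G fun l => v (c l)) (v i) (v j) :=
  .and (d_le _ _ _).not (.all (.imp (D.adj ..) (.or (d_le _ _ _) (d_le _ _ _))))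
theorem d_ef (o i j) :
    D fun _ V G (v : Fin n → V) => Ef (S G (fun l => v (c l)) 1) (Le G fun l => v (c l)) o (v i) (v j) := by
  rcases o with _ | _ | _
  exacts [.and (d_le _ _ _) (d_le _ _ _), d_sc .., d_sc ..]

theorem d_psi [Finite Q] (M : FM Q K) (z) : D fun m V G (v : Fin n → V) => Psi M G (fun l => v (c l)) (v z) m := by
  refine .and ?_ (.and (d_s ..) (.and ?_ ((D.it (Z := fun V G v => Z (S G (fun l => v (c l)) 1) (Le G fun l => v (c l)))
    (S := fun V G v x y => S G (fun l => v (c l)) 1 x ∧ Sc (S G (fun l => v (c l)) 1) (Le G fun l => v (c l)) x y)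
    (d_z _ _) (.and (d_s ..) (d_sc ..))).sb (Fin.cons z id))))
  all_goals
    simp only [Str, Comp, Idl, Start, Only, La]
    repeat' first
      | exact D.cst _ | exact D.adj .. | exact D.eq .. | exact d_le .. | exact d_mx .. | exact d_rr .. | exact d_z ..
      | exact d_sc .. | exact d_ef .. | with_reducible first
        | apply D.and | apply D.or | apply D.iff | apply D.not | apply D.imp | apply D.ex | apply D.all
        | refine D.conj fun _ => ?_ | refine D.disj fun _ => ?_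

end

end Pool.Agent.H.MP_e427d9_lc
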