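import Pool.Agent.H.MP_e427d9_lc.C
import Pool.Agent.Lib.helper21.Mach

set_option autoImplicit false

namespace Pool.Agent.H.MP_e427d9_lc

open Sum Function Pool.Agent.Lib.helper21 While Mach
open Nat.Partrec (Code)

theorem fm_prog (P : Prog) : ∃ (K : ℕ) (Q : Type) (_ : Finite Q) (M : FM Q K),
    ∀ c j, (∃ s, M.run c j s = none) ↔ ∃ t, Run P (inp c j) t := by
  classical
  let S : Set (List Prog) := {x | x ∈ [] :: cl P []}
  have : Finite S := (List.finite_toSet _).to_subtype
  have hS : ∀ q ∈ S, ∀ b y, (M0 P).nxt (some q) b = some y → ∃ z ∈ S, y = some z := by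
    intro q hq b y h
    simp only [S, List.mem_cons, Set.mem_ofPred_eq] at hq ⊢
    rcases hq with rfl | hx
    · cases h
    · obtain ⟨z, rfl, h' | rfl⟩ := closed P P _ _ hx b y h
      exacts [⟨z, .inr h', rfl⟩, ⟨_, .inl rfl, rfl⟩]
  obtain ⟨K, hK⟩ := (Set.finite_range fun q : S => (M0 P).reg q.1).bddAbove
  let ρ : S → Fin (K + 1) := fun q => ⟨_, Nat.lt_succ_of_le (hK ⟨q, rfl⟩)⟩
  let M : FM S (K + 1) :=
    { nx := fun q b => ((M0 P).nxt q.1 b).join.bind fun y => if h : y ∈ S then some ⟨y, h⟩ else none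
      r := ρ
      ef := fun q b i => if i = ρ q then (M0 P).eff q.1 b else none
      q0 := ⟨[P], List.mem_cons_of_mem _ (self_mem ..)⟩
      nd := fun q b i h => by
        split_ifs at h with e
        exact ⟨e, by cases b; rfl; exact ((M0 P).nodec _ h).elim⟩ }
  refine ⟨_, S, this, M, fun c j => ?_⟩
  have key : ∀ s, (M.run c j s).map (Prod.map (fun q => some q.1) id) =
      ((fun o => o.bind ((M0 P).step 0))^[s] (some (some [P], inp c j))).map
        (Prod.map id fun σ (i : Fin (K + 1)) => σ i) := fun s => by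
    induction s with
    | zero => rfl
    | succ s ih =>
      rw [run_s, iterate_succ_apply']
      generalize M.run c j s = a at ih ⊢
      generalize _^[s] _ = b at ih ⊢
      obtain _ | ⟨q, σ⟩ := a <;> obtain _ | ⟨q', τ⟩ := b <;> cases ih
      · rfl
      have e : (M0 P).tst 0 (some q.1, τ) = decide (τ (ρ q) = 0) := by simp [CM.tst, CM.thr, ρ]
      simp only [Option.bind_some, FM.step, CM.step, e, M]
      generalize decide (τ _ = 0) = b
      cases h : (M0 P).nxt q.1 b with
      | none => simp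
      | some y =>
        obtain ⟨z, a, rfl⟩ := hS _ q.2 _ _ h
        simp only [Option.join_some, Option.bind_some, a, dif_pos, Option.map_some, Prod.map, id]
        congr 2
        funext i
        have : i = ρ q ↔ i.1 = (M0 P).reg q.1 := Fin.ext_iff
        rcases (M0 P).eff q.1 b with _ | _ | _ <;> simp only [app, update_apply, this] <;> split_ifs <;> simp [ap, *]
  refine (exists_congr fun s => ?_).trans ((halts_iff ((M0 P).step 0) (some [P], inp c j)).symm.trans
    ⟨fun h => (run_of_halts P 0 h _ _ rfl).imp fun _ => And.left, fun ⟨t, h⟩ => halts_of_run P 0 h [] (.stop rfl)⟩)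
  rw [← Option.map_eq_none_iff, key, Option.map_eq_none_iff]

theorem univ : ∃ (K : ℕ) (Q : Type) (_ : Finite Q) (M : FM Q K),
    ∀ c i, (∃ s, M.run (Encodable.encode c) (Encodable.encode c + 1 + i) s = none) ↔ (Nat.Partrec.Code.eval c i).Dom := by
  obtain ⟨P, hP⟩ := search_prog (g := fun n k => Encodable.encode
    (Nat.Partrec.Code.evaln k (Denumerable.ofNat _ n.unpair.1) (n.unpair.2 - (n.unpair.1 + 1))).isNone)
    (Primrec.encode.comp (Primrec.not.comp (Primrec.option_isSome.comp
      (Nat.Partrec.Code.primrec_evaln.comp ((Primrec.snd.pair ((Primrec.ofNat _).comp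
        (Primrec.fst.comp (Primrec.unpair.comp .fst)))).pair (Primrec.nat_sub.comp
          (Primrec.snd.comp (Primrec.unpair.comp .fst))
          (Primrec.succ.comp (Primrec.fst.comp (Primrec.unpair.comp .fst)))))))) |>.of_eq (fun x => by simp))
  obtain ⟨A, hA⟩ := prim_prog (Nat.Primrec'.prim_iff₂.2 Primrec₂.natPair) ![0, 1] 2 3 (by decide) (by decide)
    (by decide)
  obtain ⟨K, Q, _, M, h⟩ := fm_prog (.seq (.seq A (.seq (clr 0) (.seq (clr 1) (mov 2 0)))) P)
  refine ⟨K, Q, ‹_›, M, fun c i => (h ..).trans ?_⟩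
  have : ∀ c j, Run (.seq A (.seq (clr 0) (.seq (clr 1) (mov 2 0)))) (inp c j) (init (c.pair j)) := fun c j =>
    (Run.seq (hA _ fun r a => by unfold inp; split_ifs <;> omega) (.seq (run_clr ..) (.seq (run_clr ..)
      (run_mov (by decide) _)))).of_eq fun r => by
        simp only [update_apply, init, inp]
        split_ifs <;> simp_all
  refine Iff.trans ⟨?_, fun ⟨t, a⟩ => ⟨t, .seq (this ..) a⟩⟩ ((hP _).trans ?_)
  · rintro ⟨t, a⟩
    cases a with | seq a b => exact ⟨t, (a.det (this ..)) ▸ b⟩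
  simp only [Part.dom_iff_mem, Nat.Partrec.Code.evaln_complete, Nat.unpair_pair, Denumerable.ofNat_encode,
    Nat.add_sub_cancel_left]
  rw [exists_comm]
  exact exists_congr fun k => by cases Nat.Partrec.Code.evaln k c i <;> simp

section
variable {α β σ : Type} [Primcodable α] [Primcodable β] [Primcodable σ]

theorem fin_split [Finite α] {f : α → β → σ} (h : ∀ i, Primrec (f i)) : Primrec₂ f := by
  obtain ⟨n, ⟨e⟩⟩ := Finite.exists_equiv_fin α
  exact ((Primrec.fin_curry₁.2 fun i => h (e.symm i)).comp ((Primrec.dom_finite e).comp .fst) .snd).of_eq (by simp)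

theorem pp_c (p : Prop) : PrimrecPred fun _ : β => p := by
  classical exact (Primrec.const (decide p)).primrecPred

theorem ex_fin {ι : Type} [Finite ι] {p : ι → β → Prop} (h : ∀ i, PrimrecPred (p i)) : PrimrecPred fun b => ∃ i, p i b := by
  classical
  obtain ⟨n, ⟨e⟩⟩ := Finite.exists_equiv_fin ι
  have : PrimrecRel fun i b => p (e.symm i) b := Primrec₂.primrecRel (fin_split fun i => (h _).decide)
  exact (this.exists_mem_list.comp (Primrec.const (List.finRange n)) Primrec.id).of_eq fun b => by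
    simpa using (e.symm.surjective.exists (p := (p · b))).symm

end

variable {Q : Type} {K N : ℕ} [Primcodable Q] [Finite Q] (M : FM Q K)

theorem p_run : Primrec fun x : (ℕ × ℕ) × ℕ => M.run x.1.1 x.1.2 x.2 := by
  have t : Primrec fun c : Q × (Fin K → ℕ) => (c.1, decide (c.2 (M.r c.1) = 0)) := Primrec.fst.pair
    (Primrec.eq.comp (Primrec.fin_app.comp .snd ((Primrec.dom_finite M.r).comp .fst)) (.const 0)).decide
  have s : Primrec M.step := Primrec.option_map ((Primrec.dom_finite fun x : Q × Bool => M.nx x.1 x.2).comp t)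
    (Primrec.snd.pair ((Primrec.fin_curry.2 (Primrec₂.swap (Primrec.fin_curry₁.2 fun i =>
      (fin_split (f := ap) (by
        rintro (_ | _ | _)
        exacts [.id, Primrec.pred, Primrec.succ])).comp
        ((Primrec.dom_finite fun x : Q × Bool => M.ef x.1 x.2 i).comp t)
        (Primrec.fin_app.comp .snd (.const i))))).comp .fst))
  refine Primrec.nat_iterate .snd (Primrec.option_some.comp ((Primrec.const _).pair (Primrec.fin_curry.2
    (Primrec₂.swap (Primrec.fin_curry₁.2 fun i => ?_))))) ((Primrec.option_bind₁ s).comp .snd).to₂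
  unfold inp
  split_ifs
  exacts [Primrec.fst.comp .fst, Primrec.snd.comp .fst, .const _]

theorem p_x : Primrec fun x : (ℕ × ℕ) × ℕ => M.X x.1.1 x.1.2 x.2 :=
  Primrec.ite (Primrec.nat_lt.comp .snd (Primrec.snd.comp .fst)) (.const _)
    ((p_run M).comp (Primrec.fst.pair (Primrec.nat_sub.comp .snd (Primrec.snd.comp .fst))))

abbrev LL (K : ℕ) (Q : Type) := (Fin (K + 2) ⊕ Option Q) ⊕ Fin (K + 2)

def hN (c j : ℕ) : LL K Q → ℕ → LL K Q → ℕ → Prop
  | inl (inl s), _, inr s', _ => s = s'
  | inl (inr o), _, inr s', x => s' = 1 ∧ o = (M.X c j x).map Prod.fst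
  | inr s, x, inr s', y => (s ≠ 0 ∧ s' = 0 ∧ x ≤ y) ∨
    (s = 1 ∧ ∃ i, s' = Fin.succ (Fin.succ i) ∧ (M.X c j x).map (fun a => a.2 i) = some y)
  | _, _, _, _ => False

theorem p_hN : PrimrecPred fun x : (ℕ × ℕ) × (LL K Q × ℕ) × LL K Q × ℕ =>
    hN M x.1.1 x.1.2 x.2.1.1 x.2.1.2 x.2.2.1 x.2.2.2 := by
  classical
  have : Primrec₂ fun (l : LL K Q × LL K Q) (x : (ℕ × ℕ) × ℕ × ℕ) => decide (hN M x.1.1 x.1.2 l.1 x.2.1 l.2 x.2.2) := by
    refine fin_split fun l => PrimrecPred.decide ?_
    obtain ⟨(s | o) | s, (s' | o') | s'⟩ := l <;> simp only [hN] <;> try exact pp_c _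
    · exact (pp_c _).and (Primrec.eq.comp (.const _) ((Primrec.option_map₁ .fst).comp
        ((p_x M).comp (Primrec.fst.pair (Primrec.snd.comp .snd)))))
    · exact ((pp_c _).and ((pp_c _).and (Primrec.nat_le.comp (Primrec.fst.comp .snd) (Primrec.snd.comp .snd)))).or
        ((pp_c _).and (ex_fin fun i => (pp_c _).and (Primrec.eq.comp ((Primrec.option_map₁
          (Primrec.fin_app.comp .snd (.const i))).comp ((p_x M).comp (Primrec.fst.pair (Primrec.fst.comp .snd))))
          (Primrec.option_some.comp (Primrec.snd.comp .snd)))))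
  exact (this.comp ((Primrec.fst.comp (Primrec.fst.comp .snd)).pair (Primrec.fst.comp (Primrec.snd.comp .snd)))
    (Primrec.fst.pair ((Primrec.snd.comp (Primrec.fst.comp .snd)).pair
      (Primrec.snd.comp (Primrec.snd.comp .snd))))).primrecPred

theorem graphs : ∃ (sz : ℕ → ℕ) (T : ∀ _ _ N, SimpleGraph (Fin (sz N))), (∀ N, N ≤ sz N) ∧
    (∀ c j N, Nonempty (T c j N ≃g Γ (M.St c j N) (M.R c j N))) ∧
    Primrec fun x : (ℕ × ℕ) × ℕ => @mat _ (T x.1.1 x.1.2 x.2) (Classical.decRel _) := by
  classical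
  obtain ⟨l, n, m⟩ := Finite.exists_univ_list (Fin (K + 2) ⊕ Option Q)
  let vs : ∀ N, List (VT K (Option Q) N) := fun N => l.map inl ++ (List.finRange (K + 2) ×ˢ List.finRange N).map inr
  have n' : ∀ N, (vs N).Nodup := fun N => (n.map inl_injective).append
    (((List.nodup_finRange _).product (List.nodup_finRange _)).map inr_injective) (by simp [List.disjoint_left])
  let e := fun N => List.Nodup.getEquivOfForallMemList _ (n' N) (by rintro (_ | ⟨_, _⟩) <;> simp [vs, m])
  refine ⟨fun N => (vs N).length, fun c j N => (Γ (M.St c j N) (M.R c j N)).comap (e N), fun N => by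
    simp [vs, List.length_product]; nlinarith, fun c j N => ⟨.comap (e N) _⟩, ?_⟩
  let φ : ∀ N, VT K (Option Q) N → LL K Q × ℕ := fun N => Sum.elim (fun a => (inl a, 0)) fun a => (inr a.1, a.2)
  have v : Primrec fun N => (vs N).map (φ N) := (Primrec.list_append.comp (.const (l.map fun a => (inl a, 0)))
    (Primrec.list_flatMap (.const (List.finRange (K + 2))) (Primrec.list_map (Primrec.list_range.comp .fst)
      (((Primrec.sumInr.comp .snd).comp .fst).pair .snd).to₂).to₂)).of_eq fun N => by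
        simp [vs, φ, List.map_flatMap, ← List.map_coe_finRange_eq_range, comp_def, SProd.sprod, List.product]
  have p := p_hN M
  have q : Primrec fun x : (((ℕ × ℕ) × ℕ) × LL K Q × ℕ) × LL K Q × ℕ => decide
      (hN M x.1.1.1.1 x.1.1.1.2 x.1.2.1 x.1.2.2 x.2.1 x.2.2 ∨ hN M x.1.1.1.1 x.1.1.1.2 x.2.1 x.2.2 x.1.2.1 x.1.2.2) :=
    ((p.comp ((Primrec.fst.comp (Primrec.fst.comp .fst)).pair ((Primrec.snd.comp .fst).pair .snd))).or
      (p.comp ((Primrec.fst.comp (Primrec.fst.comp .fst)).pair (Primrec.snd.pair (Primrec.snd.comp .fst))))).decide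
  refine (Primrec.list_map (v.comp .snd) (Primrec.list_map (v.comp (Primrec.snd.comp .fst)) q.to₂).to₂).of_eq ?_
  rintro ⟨⟨c, j⟩, N⟩
  have : ∀ a b, hf (M.St c j N) (M.R c j N) a b ↔ hN M c j (φ N a).1 (φ N a).2 (φ N b).1 (φ N b).2 := by
    rintro ((_ | _) | ⟨_, _⟩) ((_ | _) | ⟨_, _⟩) <;> simp [hf, hN, φ, FM.St, FM.R]
  simp only [mat, List.map_map, comp_def, ← this]
  exact (List.ofFn_getElem_eq_map ..).symm.trans (congrArg List.ofFn (funext fun i =>
    (List.ofFn_getElem_eq_map ..).symm.trans (congrArg List.ofFn (funext fun j => decide_eq_decide.2 .rfl))))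

end Pool.Agent.H.MP_e427d9_lc
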