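import Mathlib

/-! First-order sentences about graphs and their quantifier depth. -/

set_option autoImplicit false

namespace Pool.Agent.H.MP_e427d9_lc

/-- formulas with `n` free variables (de Bruijn indices) -/
inductive Fm : ℕ → Type
  | adj {n} (i j : Fin n) : Fm n
  | eq {n} (i j : Fin n) : Fm n
  | not {n} : Fm n → Fm n
  | and {n} : Fm n → Fm n → Fm n
  | or {n} : Fm n → Fm n → Fm n
  | ex {n} : Fm (n + 1) → Fm n
  | all {n} : Fm (n + 1) → Fm n

def Fm.Sat {V : Type} (G : SimpleGraph V) : ∀ {n}, Fm n → (Fin n → V) → Prop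
  | _, .adj i j, v => G.Adj (v i) (v j)
  | _, .eq i j, v => v i = v j
  | _, .not φ, v => ¬φ.Sat G v
  | _, .and φ ψ, v => φ.Sat G v ∧ ψ.Sat G v
  | _, .or φ ψ, v => φ.Sat G v ∨ ψ.Sat G v
  | _, .ex φ, v => ∃ x, φ.Sat G (Fin.cons x v)
  | _, .all φ, v => ∀ x, φ.Sat G (Fin.cons x v)

def Fm.depth : ∀ {n}, Fm n → ℕ
  | _, .adj _ _ => 0
  | _, .eq _ _ => 0
  | _, .not φ => φ.depth
  | _, .and φ ψ => max φ.depth ψ.depth
  | _, .or φ ψ => max φ.depth ψ.depth
  | _, .ex φ => φ.depth + 1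
  | _, .all φ => φ.depth + 1

/-- the sentence `φ` defines `G` among finite graphs -/
def Defines {V : Type} (φ : Fm 0) (G : SimpleGraph V) : Prop :=
  φ.Sat G Fin.elim0 ∧ ∀ (W : Type) [Finite W] (H : SimpleGraph W), φ.Sat H Fin.elim0 → Nonempty (H ≃g G)

/-- the adjacency matrix -/
def mat {n : ℕ} (G : SimpleGraph (Fin n)) [DecidableRel G.Adj] : List (List Bool) :=
  List.ofFn fun i => List.ofFn fun j => decide (G.Adj i j)

end Pool.Agent.H.MP_e427d9_lc
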